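import Pool.Agent.R801.KM.Count

/-!
# `MP_5fce70_co`: equivalent translation KM-arcs come from equivalent clubs

Let `K` be a field with `2 ^ n` elements, `U₁, U₂` two `F_2`-subspaces of `K ^ 2` (the line
`ℓ : X_2 = 0` of `PG(2, K)`) that define `i`-clubs, and `v₁, v₂` admissible vectors.  If the
KM-arcs `A(U₁, v₁)` and `A(U₂, v₂)` are `PΓL(3, K)`-equivalent then `U₁` and `U₂` are
`ΓL(2, K)`-equivalent.  This proves the statement of Q1 (in contrapositive form).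
-/

namespace Pool.Agent.Results.MP_5fce70_co.ArcsDetermineClubs

open Pool.Agent.R801.KM

theorem result (n i : ℕ) (hn : 1 ≤ n) (hi : 1 ≤ i)
    (K : Type) [Field K] [Algebra (ZMod 2) K] [Finite K] (hK : Nat.card K = 2 ^ n)
    (U₁ U₂ : Submodule (ZMod 2) (W K)) (hU₁ : IsClub n i U₁) (hU₂ : IsClub n i U₂)
    (hne : ¬ EquivU U₁ U₂)
    (v₁ v₂ : W K × K)
    (hv₁ : v₁ ∉ Submodule.span K {y : W K × K | ∃ u ∈ U₁, y = (u, 0)})
    (hv₂ : v₂ ∉ Submodule.span K {y : W K × K | ∃ u ∈ U₂, y = (u, 0)}) :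
    ¬ EquivArc (arc U₁ v₁) (arc U₂ v₂) :=
  fun h => hne (main hn hi hK hU₁ hU₂ hv₁ hv₂ h)

end Pool.Agent.Results.MP_5fce70_co.ArcsDetermineClubs
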